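import Pool.Agent.Helper46.UC.Defs

/-! # MP_57a173_lc: the decoding theorem HT (assembly) -/

noncomputable section

namespace UL.UC

open UL MeasureTheory

variable {I : Type} [LinearOrder I]

omit [LinearOrder I] in
theorem ext_dep {F : ℕ → Finset I} {x : Pt I → ℕ → Bool} (h : Rd F x) {v v' : I → ℕ → Bool} {n : ℕ}
    (hv : ∀ ξ ∈ F n, ∀ i, i < n → v ξ i = v' ξ i) : ext x v n = ext x v' n := by
  refine h n _ _ fun ξ hξ i hi => ?_
  show (if i < n then v ξ i else true) = (if i < n then v' ξ i else true)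
  rw [if_pos hi, if_pos hi, hv ξ hξ i hi]

omit [LinearOrder I] in
theorem ext_coe {F : ℕ → Finset I} {x : Pt I → ℕ → Bool} (h : Rd F x) (z : Pt I) :
    ext x (fun ξ => (z ξ : ℕ → Bool)) = x z := by
  funext n
  refine h n _ _ fun ξ hξ i hi => ?_
  show (if i < n then z ξ i else true) = z ξ i
  rw [if_pos hi]

theorem val_lc {F : ℕ → Finset I} {x : Pt I → ℕ → Bool} (h : Rd F x) (D : Set I)
    (q : Finset (I × ℕ)) (n : ℕ) : LC D (fun w => val x D q w n) := by
  classical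
  refine ⟨(F n : Set I) ∩ D, Set.inter_subset_right, (F n).countable_toSet.mono
    Set.inter_subset_left, fun z => ⟨(F n).filter (· ∈ D), ?_, n, fun z' hz' => ?_⟩⟩
  · intro ξ hξ
    simpa using hξ
  · refine ext_dep h fun ξ hξ i hi => ?_
    unfold mg
    by_cases hD : ξ ∈ D
    · rw [if_pos hD, if_pos hD]
      exact hz' ξ (Finset.mem_filter.2 ⟨hξ, hD⟩) i hi
    · rw [if_neg hD, if_neg hD]

omit [LinearOrder I] in
theorem list_lc {D : Set I} {κ : ℕ → Pt I → ℕ} (hκ : ∀ j, LC D (κ j)) (l : List ℕ) :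
    LC D (fun z => l.map fun j => κ j z) := by
  induction l with
  | nil => exact LC.const _
  | cons a l ih => exact (hκ a).map₂ ih fun x y => x :: y

theorem phi_lc {F : ℕ → Finset I} {x : Pt I → ℕ → Bool} (h : Rd F x) {D : Set I}
    (hD : IsLowerSet D) {f : Pt I → Pt I} (hf : IsM f) {κ : ℕ → Pt I → ℕ} (hκ : ∀ j, LC D (κ j))
    (c : ℕ → I) (T : Finset ℕ) (n : ℕ) :
    LC D (fun z => val x D (pts c κ T z) (f z) n) := by
  classical
  have h1 := LC.bind (list_lc hκ T.toList)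
    (g := fun l z => val x D (((T.toList.zip l).map fun p => (c p.1, p.2)).toFinset) (f z) n)
    fun l => (val_lc h D _ n).comp hD hf
  have h2 : ∀ z, ((T.toList.zip (T.toList.map fun j => κ j z)).map fun p => (c p.1, p.2)).toFinset
      = pts c κ T z := by
    intro z
    unfold pts
    rw [List.zip_map_right, List.map_map]
    ext p
    simp only [List.mem_toFinset, List.mem_map, Finset.mem_image]
    constructor
    · rintro ⟨⟨a, b⟩, hab, rfl⟩
      have : a = b ∧ a ∈ T.toList := by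
        have h3 := List.of_mem_zip hab
        refine ⟨?_, h3.1⟩
        have : ∀ l : List ℕ, (a, b) ∈ l.zip l → a = b := by
          intro l
          induction l with
          | nil => simp
          | cons x l ih =>
            simp only [List.zip_cons_cons, List.mem_cons, Prod.mk.injEq]
            rintro (⟨rfl, rfl⟩ | h)
            · rfl
            · exact ih h
        exact this _ hab
      obtain ⟨rfl, ha⟩ := this
      exact ⟨a, by simpa using ha, rfl⟩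
    · rintro ⟨a, ha, rfl⟩
      refine ⟨(a, a), ?_, rfl⟩
      have : ∀ l : List ℕ, a ∈ l → (a, a) ∈ l.zip l := by
        intro l
        induction l with
        | nil => simp
        | cons x l ih =>
          simp only [List.zip_cons_cons, List.mem_cons, Prod.mk.injEq]
          rintro (rfl | h)
          · exact Or.inl ⟨rfl, rfl⟩
          · exact Or.inr (ih h)
      exact this _ (by simpa using ha)
  simpa only [h2] using h1

theorem ht (cr : P_CR) (dif : P_DIF) (rnk : P_RNK) (kap : P_KAP) (emb : P_EMB) (new_ : P_NEW)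
    (dec : P_DEC) (fl : G_FL) (mes : G_MES) : G_HT := by
  classical
  intro I _ _ hF hPD D x hD hx hnew
  obtain ⟨χ₀, hχ₀, F, hRd⟩ := cr fl I hPD x hx
  rcases isEmpty_or_nonempty I with hI | hI
  · exfalso
    refine hnew id IsM.id' fun i => ?_
    have h1 : (fun z : Pt I => x (id z) i) = fun _ => x (fun ξ => (hI.false ξ).elim) i := by
      funext z
      have : z = fun ξ => (hI.false ξ).elim := funext fun ξ => (hI.false ξ).elim
      rw [this]; rfl
    rw [h1]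
    exact LC.const _
  have hz0 : Fin0 (fun _ : I => 0) := by simp [Fin0]
  have fpsD : FPS D (fun _ => 0) := hF D _ hD hz0 fun _ _ => rfl
  have fpsU : FPS (Set.univ : Set I) (fun _ => 0) := hF _ _ isLowerSet_univ hz0 fun _ _ => rfl
  obtain ⟨f, hf, hDf⟩ := dif I D F (fun z => x (χ₀ z)) hD fpsD hRd
  obtain ⟨lv, ci, lb, rk, hlv, hlf, hrk⟩ := rnk
  obtain ⟨A, hA⟩ : ∃ A : Set I, A = (⋃ n, (F n : Set I)) \ D := ⟨_, rfl⟩
  have hAc : A.Countable := by
    rw [hA]
    exact (Set.countable_iUnion fun n => (F n).countable_toSet).mono Set.sdiff_subset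
  have hAD : A ⊆ Dᶜ := by rw [hA]; exact fun ξ hξ => hξ.2
  have hFA : ∀ n, ∀ ξ ∈ F n, ξ ∉ D → ξ ∈ A := fun n ξ hξ h => by
    rw [hA]; exact ⟨Set.mem_iUnion.2 ⟨n, hξ⟩, h⟩
  obtain ⟨nu, hnu⟩ := Set.countable_iff_exists_injOn.1 hAc
  obtain ⟨c, hc⟩ : ∃ c : ℕ → I, ∀ ξ ∈ A, ∀ j, ci j = nu ξ → c j = ξ := by
    refine ⟨fun j => if h : ∃ ξ ∈ A, ci j = nu ξ then h.choose else hI.some, fun ξ hξ j hj => ?_⟩
    have h : ∃ ξ ∈ A, ci j = nu ξ := ⟨ξ, hξ, hj⟩
    simp only [dif_pos h]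
    exact hnu h.choose_spec.1 hξ (h.choose_spec.2.symm.trans hj)
  obtain ⟨κ, hκ, hκm, hκD⟩ := kap I D c _ hDf
  obtain ⟨x₁, hx₁⟩ : ∃ x₁ : Pt I → ℕ → Bool, x₁ = fun z => x (χ₀ z) := ⟨_, rfl⟩
  rw [← hx₁] at hRd hκD
  obtain ⟨φ, hφ⟩ : ∃ φ : Pt I → Finset ℕ → ℕ → Bool,
    φ = fun z T => val x₁ D (pts c κ T z) (f z) := ⟨_, rfl⟩
  have hφl : ∀ T n, LC D (fun z => φ z T n) := fun T n => by
    rw [hφ]; exact phi_lc hRd hD hf.1 hκ c T n
  obtain ⟨G, hG⟩ : ∃ G : (ℕ → Bool) → Pt I → ℕ → Bool, ∀ X z n, G X z n = true ↔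
      ∀ m, n < m → ∃ (T : Finset ℕ) (y' : ℕ → Bool), y' n = true ∧
        (∀ j ∈ T, lb j = res y' (lv j)) ∧ ∀ i, i < m → φ z T i = X i :=
    ⟨fun X z n => decide (∀ m, n < m → ∃ (T : Finset ℕ) (y' : ℕ → Bool), y' n = true ∧
        (∀ j ∈ T, lb j = res y' (lv j)) ∧ ∀ i, i < m → φ z T i = X i), fun X z n => by simp⟩
  have hGdep : ∀ X z z', (∀ ξ ∈ D, z ξ = z' ξ) → G X z = G X z' := by
    intro X z z' h
    have h1 : ∀ T i, φ z T i = φ z' T i := fun T i => (hφl T i).dep h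
    funext n
    rw [Bool.eq_iff_iff, hG, hG]
    simp only [h1]
  refine ⟨χ₀ ∘ f, hχ₀.comp hf.1, G, fun n => ?_, hGdep, fun μ hμ Z hZ => ?_⟩
  · have h1 : {p : (ℕ → Bool) × Pt I | G p.1 p.2 n = true} =
        ⋂ m : ℕ, ⋂ _ : n < m, ⋃ T : Finset ℕ,
          ⋃ _ : ∃ y' : ℕ → Bool, y' n = true ∧ ∀ j ∈ T, lb j = res y' (lv j),
            ⋂ i : ℕ, ⋂ _ : i < m, {p : (ℕ → Bool) × Pt I | φ p.2 T i = p.1 i} := by
      ext p
      simp only [Set.mem_ofPred_eq, hG, Set.mem_iInter, Set.mem_iUnion, exists_prop]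
      constructor
      · intro h m hm
        obtain ⟨T, y', h2, h3, h4⟩ := h m hm
        exact ⟨T, ⟨y', h2, h3⟩, h4⟩
      · intro h m hm
        obtain ⟨T, ⟨y', h2, h3⟩, h4⟩ := h m hm
        exact ⟨T, y', h2, h3, h4⟩
    rw [h1]
    refine MeasurableSet.iInter fun m => MeasurableSet.iInter fun _ => MeasurableSet.iUnion fun T =>
      MeasurableSet.iUnion fun _ => MeasurableSet.iInter fun i => MeasurableSet.iInter fun _ => ?_
    have h2 : Measurable fun p : (ℕ → Bool) × Pt I => φ p.2 T i := by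
      have : Measurable fun z : Pt I => φ z T i := fun s _ =>
        (mes I).1 Bool _ ((hφl T i).mono (Set.subset_univ _)) s
      exact this.comp measurable_snd
    have h3 : Measurable fun p : (ℕ → Bool) × Pt I => p.1 i :=
      (measurable_pi_apply i).comp measurable_fst
    exact measurableSet_eq_fun h2 h3
  -- the coding
  obtain ⟨E, hE, hE1, hE2⟩ := emb I D A nu Z (fun n i σ z => κ (rk n i σ) (μ z)) hD hAc hAD hZ
    (fun n i σ => (hκ _).comp hD hμ.1) (fun z n n' i σ σ' hi hn hs hs' => by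
      refine hκm (μ z) ?_
      by_contra hlt
      have h1 := hlv (not_lt.1 hlt)
      rw [(hrk n i σ hi hs).1, (hrk n' i σ' (by omega) hs').1] at h1
      omega)
  have hED : ∀ z, ∀ ξ ∈ D, E z ξ = z ξ := fun z ξ hξ => hE1 z ξ fun h => hAD h hξ
  have hM : IsM (χ₀ ∘ f ∘ μ ∘ E) := hχ₀.comp (hf.1.comp (hμ.1.comp hE))
  obtain ⟨en, hen⟩ := exists_surjective_nat (Finset ℕ)
  obtain ⟨g, hg, hgn⟩ := new_ I D (fun z => x (χ₀ (f (μ (E z)))))
    (fun k z => φ (μ z) (en k)) hD fpsU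
    (fun n => (hx n).comp isLowerSet_univ hM)
    (fun χ hχ h => hnew _ (hM.comp hχ) h)
    (fun k n => (hφl _ n).comp hD hμ.1)
  refine ⟨E ∘ g, hE.comp hg, fun z i => ?_⟩
  obtain ⟨u, hu⟩ : ∃ u, u = g z := ⟨_, rfl⟩
  show G (x (χ₀ (f (μ (E (g z)))))) (μ (E (g z))) i = Z (E (g z)) i
  have hgn' := hgn z
  rw [← hu] at hgn' ⊢
  have hμD : ∀ ξ ∈ D, μ (E u) ξ = μ u ξ := fun ξ hξ => hμ.1.dep fun η hη => hED u η (hD hη hξ)
  have e1 : Z (E u) i = Z u i := (hZ i).dep fun ξ hξ => hED u ξ hξ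
  rw [hGdep _ (μ (E u)) (μ u) hμD, e1, Bool.eq_iff_iff, hG]
  obtain ⟨w, hw⟩ : ∃ w, w = μ u := ⟨_, rfl⟩
  rw [← hw]
  refine (dec lv lb (fun j => κ j w) (fun T => φ w T) (Z u) (x (χ₀ (f (μ (E u)))))
    {j | ∃ ξ ∈ A, ∃ l, j = rk (l + nu ξ) (nu ξ) (res (Z u) (l + nu ξ)) ∧ u ξ l = true}
    hlv hlf (hκm w) ?_ ?_ ?_ ?_ ?_ i).symm
  · intro T T' n hT
    rw [hφ]
    refine ext_dep hRd fun ξ hξ k hk => ?_
    unfold mg
    by_cases hD' : ξ ∈ D
    · rw [if_pos hD', if_pos hD']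
    · rw [if_neg hD', if_neg hD', decide_eq_decide]
      unfold pts
      simp only [Finset.mem_image, Prod.mk.injEq]
      constructor
      · rintro ⟨j, hj, h1, h2⟩
        exact ⟨j, (hT j (by omega)).1 hj, h1, h2⟩
      · rintro ⟨j, hj, h1, h2⟩
        exact ⟨j, (hT j (by omega)).2 hj, h1, h2⟩
  · intro j T T' h1 h2
    rw [hφ]
    exact hκD w j T T' h1 h2
  · rintro j ⟨ξ, hξ, l, rfl, -⟩
    have h1 := hrk (l + nu ξ) (nu ξ) (res (Z u) (l + nu ξ)) (by omega) (by simp)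
    rw [h1.1, h1.2.2]
  · intro T n hT
    have h0 : x (χ₀ (f (μ (E u)))) = x₁ (f (μ (E u))) := by rw [hx₁]
    rw [h0, ← ext_coe hRd, hφ]
    refine ext_dep hRd fun ξ hξ k hk => ?_
    unfold mg
    by_cases hD' : ξ ∈ D
    · rw [if_pos hD', hw]
      have : f (μ (E u)) ξ = f (μ u) ξ := hf.1.dep fun η hη => hμD η (hD hη hD')
      rw [this]
    · rw [if_neg hD', hf.2 _ ξ hD', hμ.2 _ ξ hD', Bool.eq_iff_iff]
      have hξA := hFA n ξ hξ hD'
      rw [hE2 u ξ hξA k, decide_eq_true_iff]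
      unfold pts
      simp only [Finset.mem_image, Prod.mk.injEq]
      rw [← hw]
      constructor
      · rintro ⟨l, hl, hl'⟩
        refine ⟨rk (l + nu ξ) (nu ξ) (res (Z u) (l + nu ξ)), (hT _ (by omega)).2
          ⟨ξ, hξA, l, rfl, hl'⟩, hc ξ hξA _ (hrk _ _ _ (by omega) (by simp)).2.1, hl.symm⟩
      · rintro ⟨j, hj, hj1, hj2⟩
        obtain ⟨ξ', hξ', l, rfl, hl⟩ := (hT j (by omega)).1 hj
        have h3 := hc ξ' hξ' _ (hrk (l + nu ξ') (nu ξ') (res (Z u) (l + nu ξ'))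
          (by omega) (by simp)).2.1
        rw [h3] at hj1
        subst hj1
        exact ⟨l, hj2.symm, hl⟩
  · intro T
    obtain ⟨k, rfl⟩ := hen T
    obtain ⟨n, hn⟩ := hgn' k
    refine ⟨n, ?_⟩
    rw [← hw] at hn
    exact fun h => hn h.symm

end UL.UC
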