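import Pool.Agent.Helper46.UC.Main
import Pool.Agent.Helper14.UC.CR
import Pool.Agent.Helper14.UC.KAP
import Pool.Agent.Helper13.UC.DIF
import Pool.Agent.Helper45.UC.RNK
import Pool.Agent.Helper50.UC.EMB
import Pool.Agent.Helper11.UC.NEW
import Pool.Agent.Helper83.UC.DEC

/-! # MP_57a173_lc: the decoding theorem HT, all packets -/

namespace UL.UC

open UL

/-- The decoding theorem from the fusion limit theorem and measurability of locally constant
functions. -/
theorem ht_all (fl : G_FL) (mes : G_MES) : G_HT :=
  ht PkCR.cr PkDIF.dif PkRNK.rnk PkKAP.kap PkEMB.emb PkNEW.new_ PkDEC.dec fl mes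

end UL.UC
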