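import Pool.Agent.Helper15.UL.GoalsC

/-!
# MP_57a173_lc: the decoding theorem HT by labelled positions (definitions and goals)

The real `x` is a function of the generic point `z`. All ones of the generic sequences at the
coordinates outside `D` are put on the positions `κ j` of a fast growing pool; the index `j` has a
level `lv j`, a coordinate number `ci j` and a label `lb j`, an initial segment of the real `Z` to be
coded. Then `x` and the lower part determine `Z`.
-/

noncomputable section

namespace UL.UC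

open UL

variable {I : Type} [LinearOrder I]

/-- `x` is compactly read: the bit `n` depends only on the first `n` bits at the coordinates in
the finite set `F n`. -/
def Rd (F : ℕ → Finset I) (x : Pt I → ℕ → Bool) : Prop :=
  ∀ n z z', (∀ ξ ∈ F n, ∀ i, i < n → z ξ i = z' ξ i) → x z n = x z' n

/-- The first `n` bits of `v`, then ones. -/
def ones (n : ℕ) (v : I → ℕ → Bool) : Pt I := fun ξ =>
  ⟨fun i => if i < n then v ξ i else true, fun k => ⟨max k n, le_max_left _ _, by simp⟩⟩

/-- The extension of a compactly read real to all sequences. -/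
def ext (x : Pt I → ℕ → Bool) (v : I → ℕ → Bool) : ℕ → Bool := fun n => x (ones n v) n

open Classical in
/-- `w` on `D`, the finite set `q` of pairs (coordinate, position) outside `D`. -/
def mg (D : Set I) (q : Finset (I × ℕ)) (w : Pt I) : I → ℕ → Bool :=
  fun ξ i => if ξ ∈ D then w ξ i else decide ((ξ, i) ∈ q)

/-- The value of `x` at `w` on `D` and the finite point `q` outside `D`. -/
def val (x : Pt I → ℕ → Bool) (D : Set I) (q : Finset (I × ℕ)) (w : Pt I) : ℕ → Bool :=
  ext x (mg D q w)

open Classical in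
/-- The first difference (zero if there is none). -/
def fd (a b : ℕ → Bool) : ℕ := if h : ∃ i, a i ≠ b i then Nat.find h else 0

open Classical in
/-- The finite point with the indices in `T`: the index `j` is at the coordinate `c j` and the
position `κ j w`. -/
def pts (c : ℕ → I) (κ : ℕ → Pt I → ℕ) (T : Finset ℕ) (w : Pt I) : Finset (I × ℕ) :=
  T.image fun j => (c j, κ j w)

/-- CR. Compact reading.

PROOF. Build by recursion finite sets `F n` and maps `χ n`: let `q n ξ = n + 1` if `ξ ∈ F n` and `0`
otherwise; `HPD` for `q n`, `k = n + 1` and the real `z ↦ x (comps χ 0 n z)` (bits `LC univ` by `LC.comp`, `comps χ 0 n`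
is in the monoid) gives `χ n`, pure for `q n`, such that on every cell of level `q n` the first `n + 1`
bits of `x (comps χ 0 n (χ n z)) = x (comps χ 0 (n + 1) z)` are constant. Bookkeeping: for every `l` let
`e l : ℕ → Option I` enumerate a countable set outside of which `χ l` is the identity (`IsRep.sup`);
`F (n + 1) = F n ∪ {e l m | l, m ≤ n}`, `F 0 = ∅` (`F` is monotone). `G_FL` applies: `q l ξ ≤ q (l+1) ξ`, and if `χ l` moves
`ξ` then `ξ ∈ F m` for all large `m`, `q m ξ = m + 1`. It gives `ψ j`, `ψ j = χ j ∘ ψ (j + 1)`, so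
`ψ 0 = comps χ 0 (n + 1) ∘ ψ (n + 1)`, `ψ (n + 1)` pure for `q (n + 1)`: it does not change the first
`n + 1` bits at `ξ ∈ F (n + 1)` (`Pure.bits`). So if `z`, `z'` agree in the first `n` bits at all
`ξ ∈ F n`, then `ψ (n+1) z` and `ψ (n+1) z'` are in the same cell of level `q n` (cells of level `q n` are given by the
first `q n ξ - 1 = n` bits at `ξ ∈ F n`: `cell`, `mem_cell`), so the bits `n` of `x (ψ 0 z)` and `x (ψ 0 z')` are equal.
Take `χ = ψ 0`. -/
def P_CR : Prop :=
  G_FL → ∀ (I : Type) [LinearOrder I] [WellFoundedLT I], HPD I →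
    ∀ x : Pt I → ℕ → Bool, (∀ i, LC Set.univ (fun z => x z i)) →
      ∃ χ, IsM χ ∧ ∃ F : ℕ → Finset I, Rd F (fun z => x (χ z))

/-- DIF. Making first differences locally constant.

PROOF. Let `A = ⋃ n, F n`, countable. `val x D q w n` depends only on `w ξ i` for
`ξ ∈ F n`, `ξ ∈ D`, `i < n`, and on `q ∩ (F n × [0,n))` (by `Rd`: `ones n v` agrees with `v` in the first `n` bits);
so `val x D q w = val x D q' w` for `q' = q.filter (·.1 ∈ A)` and it is enough to treat the countably many
pairs of finite subsets of `A × ℕ` (the functions of `w` are equal, so `LC` is the same). For a pair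
`p = (q, q')` of finite subsets of `A × ℕ` let `Q p f` be: `(∀ z, val x D q (f z) = val x D q' (f z))`, or
`∃ d, ∀ z,` the two values agree below `d` and differ at `d`. `Q p` is open (composition).
Dense: let `f` be in `MD D`; if the values differ at some `z`, first at `d`, then the bits
`≤ d` of both values at `f z'` are the same for all `z'` in a cone `B τ`, `τ` with finite support in
`D`, `z ∈ B τ` (they are `LC D` functions of `z'`: they depend on finitely many bits `f z' ξ i`, `ξ ∈ D`, so they are `LC D`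
before composing with `f`, and `LC.comp`; then `LC_iff`); take `g = J τ` (`J_MD`, `J_mem_B`).
`FPS D 0` (enumerate the pairs by `ℕ`, the type of finite subsets of the countable set `A × ℕ` is countable) gives `f`
with `Cov D f (Q p)` for all `p`. On a cone `B τ` with `Q p (f ∘ J τ)` the function `fd` is constant, so it is `LC D`
by `LC_iff` (`Cov`: the cones have finite supports in a countable subset of `D` and cover). -/
def P_DIF : Prop :=
  ∀ (I : Type) [LinearOrder I] (D : Set I) (F : ℕ → Finset I) (x : Pt I → ℕ → Bool),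
    IsLowerSet D → FPS D (fun _ => 0) → Rd F x →
    ∃ f, MD D f ∧ ∀ q q' : Finset (I × ℕ),
      LC D (fun w => fd (val x D q (f w)) (val x D q' (f w)))

/-- RNK. The indices `(n, i, σ)`, `i ≤ n`, `σ` of length `n`, ranked with increasing level.

PROOF. `lv j = Nat.log 4 j`, `rk n i σ = 4 ^ n + (i * 2 ^ n + v σ)` with `v σ < 2 ^ n` the number
with the binary digits `σ`; `i * 2 ^ n + v σ < (n + 1) * 2 ^ n ≤ 4 ^ n`, so the level is `n`;
`ci j = (j - 4 ^ lv j) / 2 ^ lv j` and `lb j` = the list of the `lv j` binary digits of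
`(j - 4 ^ lv j) % 2 ^ lv j`. (Or any other ranking.) -/
def P_RNK : Prop :=
  ∃ (lv ci : ℕ → ℕ) (lb : ℕ → List Bool) (rk : ℕ → ℕ → List Bool → ℕ),
    Monotone lv ∧ (∀ n, {j | lv j ≤ n}.Finite) ∧
    ∀ n i σ, i ≤ n → σ.length = n →
      (lv (rk n i σ) = n ∧ ci (rk n i σ) = i ∧ lb (rk n i σ) = σ)

/-- KAP. The pool of positions.

PROOF. Recursion on `j`: `κ j w = 1 + ∑ i < j, κ i w + ∑ T, T' ⊆ range j, Df (..T) (..T') w` (define
first `K j w : ℕ → ℕ`, the history up to `j`, by `K 0 w = 0`, `K (j+1) w = update (K j w) j (...)`).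
Local constancy by strong induction on `j`: the finite sequence `(κ i w)_{i<j}` is `LC`
(`LC.prod`, or `LC.bind` with the countable type of lists / functions `Fin j → ℕ`), and for each
fixed value of it the sum is `LC`. -/
def P_KAP : Prop :=
  ∀ (I : Type) [LinearOrder I] (S : Set I) (c : ℕ → I)
    (Df : Finset (I × ℕ) → Finset (I × ℕ) → Pt I → ℕ), (∀ q q', LC S (Df q q')) →
    ∃ κ : ℕ → Pt I → ℕ, (∀ j, LC S (κ j)) ∧ (∀ w, StrictMono fun j => κ j w) ∧
      ∀ w j T T', T ⊆ Finset.range j → T' ⊆ Finset.range j →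
        Df (pts c κ T w) (pts c κ T' w) w < κ j w

/-- EMB. The map which puts the `l`-th bit at the coordinate `ξ ∈ A` at the position
`b (l + nu ξ) (nu ξ) (Z z | (l + nu ξ)) z`.

PROOF. `exists_rep` for: `L ξ z s = s` for `ξ ∉ A`; for `ξ ∈ A` let `a l` be
`b (l + nu ξ) (nu ξ) (res (Z z) (l + nu ξ)) z`, strictly increasing in `l`; `L ξ z s` is the string of
length `a s.length` with the bit `s[l]` at the place `a l` for `l < s.length` and zeros at all other places.
`IsL`: clear. Local constancy: for `ξ ∈ A` we have `ξ ∉ D`, so `D ⊆ Iio ξ` (linear order, lower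
set); `res (Z z) n` is `LC D` and `a l` is `LC D` by `LC.bind`; `L ξ z s` is a function of the finite
sequence `a 0, ..., a s.length`. Then `IsRep.pre` (`res (z ξ) n` for large `n`, `IsRep.val`) gives all bits of
`E z ξ`. -/
def P_EMB : Prop :=
  ∀ (I : Type) [LinearOrder I] (D A : Set I) (nu : I → ℕ) (Z : Pt I → ℕ → Bool)
    (b : ℕ → ℕ → List Bool → Pt I → ℕ), IsLowerSet D → A.Countable → A ⊆ Dᶜ →
    (∀ i, LC D (fun z => Z z i)) → (∀ n i σ, LC D (b n i σ)) →
    (∀ z n n' i σ σ', i ≤ n → n < n' → σ.length = n → σ'.length = n' → b n i σ z < b n' i σ' z) →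
    ∃ E, IsM E ∧ (∀ z ξ, ξ ∉ A → E z ξ = z ξ) ∧
      ∀ z ξ, ξ ∈ A → ∀ p, (E z ξ p = true ↔
        ∃ l, p = b (l + nu ξ) (nu ξ) (res (Z z) (l + nu ξ)) z ∧ z ξ l = true)

/-- NEW. A new real is made different from countably many old ones at all points.

PROOF. `Q k h` := `∃ n, ∀ z, y (h z) n ≠ r k (h z) n`. Open. Dense: let `f` be in `MD univ`, so
`IsM f`; if `y (f z) n = r k (f z) n` for all `z`, `n`, then `fun z => y (f z) n` is
`LC D` for all `n` (`LC.comp`, lower set `D`), against `New`. So `y (f z) n ≠ r k (f z) n` for some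
`z`, `n`; both are `LC univ` functions of `z` (`LC.comp`), so they are constant on a cone `B τ`
containing `z`, `τ` with finite support (`LC_iff` for the pair); take `g = J τ` (`J_isM`, `J_mem_B`).
`FPS univ 0` gives `g` with `Cov univ g (Q k)` for all `k`: every `z` is in a cone `B τ` with
`Q k (g ∘ J τ)`, and `z = J τ z'`. -/
def P_NEW : Prop :=
  ∀ (I : Type) [LinearOrder I] (D : Set I) (y : Pt I → ℕ → Bool) (r : ℕ → Pt I → ℕ → Bool),
    IsLowerSet D → FPS (Set.univ : Set I) (fun _ => 0) → (∀ n, LC Set.univ (fun z => y z n)) →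
    New D y → (∀ k n, LC D (fun z => r k z n)) →
    ∃ g, IsM g ∧ ∀ z k, ∃ n, y (g z) n ≠ r k (g z) n

/-- DEC. The combinatorics of the decoding (everything at a fixed point `z`).
`φ T` is the real computed from the finite set `T` of indices, `κ j` the position of `j`, `y` the
sequence to be decoded, `Z` the (infinite) set of the indices used by the point and `X` the real.

PROOF. `φ T n = φ T' n` if `T` and `T'` contain the same `j` with `κ j < n` (`hdep`); `κ` is
strictly increasing, so `{j | κ j < n}` is finite.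
(=>) Let `y n = true`, `m` given. `T = Z ∩ {j | κ j < m}` and `y' = y` (the hypothesis on `X` at all `i < m`, and `hdep`).
(<=) Suppose `y n = false`. For every `T0 ⊆ {j | lv j ≤ n}` (finitely many) there is a place where
`φ T0` and `X` differ (last hypothesis); let `m > n` be above all of them. By assumption there are `T'`, `y'` with
`y' n = true`, `φ T' i = X i` for `i < m`. Let `T = Z ∩ {j | κ j < m}`, so `φ T i = X i` for `i < m`. Let
`N ≤ n` be the least `N` with `y N ≠ y' N`. Put `T1 = {j ∈ T | N < lv j}`, `T0 = T \ T1`, and `T1'`, `T0'` in the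
same way. `T1` and `T1'` are disjoint: if `j` is in both then `res y (lv j) = lb j = res y' (lv j)`, but `N < lv j`.
CLAIM: for all `J`, with `a J = T0 ∪ {j ∈ T1 | j < J}`, `a' J = T0' ∪ {j ∈ T1' | j < J}`: `φ (a J) i = φ (a' J) i` for
all `i < m`. Otherwise let `d < m` be the first difference of `φ (a J)` and `φ (a' J)`. Let `J0` be the least index of
`(T1 ∪ T1')` which is `≥ J`. All elements of `a J`, `a' J` are `< J0`: those of `T0 ∪ T0'` because their level is `≤ N < lv J0`
and `lv` is monotone. By the hypothesis on `fd`, `d < κ J0 ≤ κ j` for all `j ∈ T1 ∪ T1'`, `j ≥ J`. So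
`φ T d = φ (a J) d` and `φ T' d = φ (a' J) d` by `hdep`, but `φ T d = X d = φ T' d`, contradiction. (If no such `J0`
exists, `a J = T`, `a' J = T'`: the same contradiction.)
From `J` to `J + 1` at most one of `a J`, `a' J` changes (disjointness), so `φ (a J) i` (`i < m`) does not depend on `J`:
`φ (a (J+1)) = φ (a' (J+1)) = φ (a' J) = φ (a J)` on `i < m` if `a'` does not change, trivial if `a` does not change. Hence
`X i = φ T i = φ T0 i` for `i < m`, `T0 ⊆ {j | lv j ≤ n}`, against the choice of `m`. -/
def P_DEC : Prop :=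
  ∀ (lv : ℕ → ℕ) (lb : ℕ → List Bool) (κ : ℕ → ℕ) (φ : Finset ℕ → ℕ → Bool)
    (y X : ℕ → Bool) (Z : Set ℕ),
    Monotone lv → (∀ n, {j | lv j ≤ n}.Finite) → StrictMono κ →
    (∀ (T T' : Finset ℕ) n, (∀ j, κ j < n → (j ∈ T ↔ j ∈ T')) → φ T n = φ T' n) →
    (∀ j T T', T ⊆ Finset.range j → T' ⊆ Finset.range j → fd (φ T) (φ T') < κ j) →
    (∀ j ∈ Z, lb j = res y (lv j)) →
    (∀ (T : Finset ℕ) n, (∀ j, κ j < n → (j ∈ T ↔ j ∈ Z)) → X n = φ T n) →
    (∀ T : Finset ℕ, ∃ n, φ T n ≠ X n) →
    ∀ n, (y n = true ↔ ∀ m, n < m → ∃ (T : Finset ℕ) (y' : ℕ → Bool), y' n = true ∧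
      (∀ j ∈ T, lb j = res y' (lv j)) ∧ ∀ i, i < m → φ T i = X i)

end UL.UC
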